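import Pool.Agent.Helper55.CR.OldReflectionType

/-!
Reflection of stationary sets bounds `pcf(a_α)`.  Let `α` be a limit ordinal, `κ = |a_α|`, let
`λ > κ` be regular and let `S ⊆ λ` be stationary.  Suppose that for any at most `κ` stationary
subsets of `S` there are finitely many ordinals of uncountable cofinality below `λ` (for example,
one) such that each of the stationary sets reflects at one of them.  Then `|pcf(a_α)| < λ`.
-/

set_option autoImplicit false

open Cardinal Helper23.Pcf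

universe u

namespace Helper55.Slim.StationaryReflection

theorem result {α : Ordinal.{u}} (hα : Order.IsSuccLimit α) {lam : Cardinal.{u}}
    (hlam : lam.IsRegular) (hκ : #(aSet α) < Cardinal.lift.{u + 1} lam) {S : Set Ordinal.{u}}
    (hS : StatIn S lam.ord)
    (hrefl : ∀ T : Set (Set Ordinal.{u}), #T ≤ #(aSet α) →
      (∀ Z ∈ T, Z ⊆ S ∧ StatIn Z lam.ord) →
      ∃ B : Set Ordinal.{u}, B.Finite ∧ (∀ β ∈ B, β < lam.ord ∧ ℵ₀ < β.cof) ∧
        ∀ Z ∈ T, ∃ β ∈ B, StatIn Z β) :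
    #(pcf (aSet α)) < Cardinal.lift.{u + 1} lam := by
  by_contra hcon
  rw [not_lt] at hcon
  obtain ⟨C, hC, hC'⟩ := Helper55.CR.OldReflectionType.nonreflection hα hlam hκ hcon
  obtain ⟨T, hT, hT', hT''⟩ := hC' S hS
  obtain ⟨B, hB, hB', hB''⟩ := hrefl T hT fun Z hZ => ⟨(hT' Z hZ).1, (hT' Z hZ).2.1⟩
  obtain ⟨Z, hZ, hZ'⟩ := hT'' B hB fun β hβ => (hB' β hβ).1
  obtain ⟨β, hβ, hZβ⟩ := hB'' Z hZ
  obtain ⟨x, hx, hx', _⟩ := hZβ _ (hC β (hB' β hβ).1 (hB' β hβ).2)
  have := (hZ' β hβ).2 (hB' β hβ).2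
  exact Set.eq_empty_iff_forall_notMem.1 this x ⟨hx, hx'⟩

end Helper55.Slim.StationaryReflection
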