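import Pool.Agent.Helper55.CR.OldWeakChains
import Pool.Agent.Helper55.Old.ClubPrediction

/-!
Upper bounds for `|pcf(a_α)|`.  Let `α` be a limit ordinal and `κ = |a_α|`.

(1) `|pcf(a_α)| ≤ κ⁺⁺`, or `|pcf(a_α)| = κ⁺⁺⁺` and `𝔟(κ⁺) ≤ κ⁺⁺⁺ ≤ 𝔡(κ⁺)`.

(2) If `μ > κ` is regular and the power set of `κ` has the `μ`-Freese–Nation property, then
`|pcf(a_α)| ≤ μ`.  In particular, if the power set of `ω` has the weak Freese–Nation property and
`a_α` is countable, then `|pcf(a_α)| ≤ ℵ₁`.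
-/

set_option autoImplicit false

open Cardinal Helper23.Pcf Helper85.Refl Pool.Agent.Helper15.PC

universe u

namespace Helper55.Slim.UpperBounds

theorem result :
    -- (1)
    (∀ (α : Ordinal.{u}) (κ : Cardinal.{u}), Order.IsSuccLimit α →
      #(aSet α) = Cardinal.lift.{u + 1} κ →
      #(pcf (aSet α)) ≤ Cardinal.lift.{u + 1} (Order.succ (Order.succ κ)) ∨
      (#(pcf (aSet α)) = Cardinal.lift.{u + 1} (Order.succ (Order.succ (Order.succ κ))) ∧
        bNum κ ≤ Order.succ (Order.succ (Order.succ κ)) ∧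
        Order.succ (Order.succ (Order.succ κ)) ≤ dNum κ)) ∧
    -- (2)
    (∀ (α : Ordinal.{u}) (X : Type u) (μ : Cardinal.{u}), Order.IsSuccLimit α → μ.IsRegular →
      #(aSet α) ≤ Cardinal.lift.{u + 1} #X → #X < μ → FN X μ →
      #(pcf (aSet α)) ≤ Cardinal.lift.{u + 1} μ) ∧
    (WFN → ∀ α : Ordinal.{u}, Order.IsSuccLimit α → #(aSet α) ≤ ℵ₀ →
      #(pcf (aSet α)) ≤ ℵ₁) := by
  refine ⟨fun α κ hα hκ => ?_, fun α X μ hα hμ hX hXμ h =>
    Helper55.CR.OldWeakChains.result.2.2.1 α X μ hα hμ hX hXμ (Or.inl h), Helper55.CR.OldWeakChains.result.2.2.2⟩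
  rcases Helper55.Old.ClubPrediction.result.2.2.2 α κ hα hκ with h | h
  · exact Or.inl h
  · exact Or.inr ⟨h.1, h.2.1, h.2.2.1⟩

end Helper55.Slim.UpperBounds
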